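import Pool.Agent.H24.VP.Fin
import Pool.Agent.H24.VP.Nef
import Pool.Agent.H24.VP.Prs
import Pool.Agent.H24.VP.Low

/-!
# THEOREM Q (MP_e49dc9_ag), corollaries: a nef divisor with `l(N) > 0` has positive degree

`up_S`, `up_X`: the number of sections of the divisors of bounded degree is bounded.
`nef_pos`: `N` nef, `l(N) > 0`: `T(N,H,H) > 0` for `H` ample.  Otherwise `T(N,.,.) = 0`, so `H ^ 3 N ^ n` has constant degree, but at least
`n l(N) + const` sections (`low_of`).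
-/

set_option autoImplicit false

namespace Pool.Agent.H83.TC

open Pool.Agent.H54.RV Pool.Agent.H83.TU Pool.Agent.H83.TK Pool.Agent.H24.TK Pool.Agent.H24.VP
open Pool.Agent.H41.TK (dg dg_ample h0_neg h0_le_dg Crv)

variable {k K : Type} [Field k] [Field K] [Algebra k K] {X : Mod k K}
  {T : Cart X → Cart X → Cart X → ℝ} {l : Cart X → ℝ} {c : ℝ} {H : Cart X} {k' L : Type} [Field k'] [Field L]
  [Algebra k' L] {S : Mod k' L} {ψ : Cart X →* Cart S}

theorem up_S (hr : RR T l c) (hS : Sf H S ψ) (d : ℝ) :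
    ∃ B : ℝ, 0 ≤ B ∧ ∀ W : Cart X, T W H H ≤ d → (h0 (ψ W) 1 : ℝ) ≤ B := by
  obtain ⟨hT, m, k₂, K₂, i1, i2, i3, i4, C, φ, hm, hC, hφ, hle, hdg, hch⟩ := crv_num hr hS
  have hm1 : (1 : ℝ) ≤ m := by exact_mod_cast hm
  have key : ∀ q : ℕ, ∃ B : ℝ, 0 ≤ B ∧ ∀ W : Cart X, T W H H < q * (m * T H H H) → (h0 (ψ W) 1 : ℝ) ≤ B := by
    intro q
    induction q with
    | zero =>
      refine ⟨0, le_rfl, fun W hW => ?_⟩
      rw [Nat.cast_zero, zero_mul] at hW
      rcases Nat.eq_zero_or_pos (h0 (ψ W) 1) with h1 | h1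
      · rw [h1, Nat.cast_zero]
      · exact absurd (h0_nn hr hS W h1) (not_le.2 hW)
    | succ q ih =>
      obtain ⟨B, hB, hBW⟩ := ih
      refine ⟨B + (m * ((q + 1 : ℕ) * (m * T H H H)) + h0 (1 : Cart C) 1), by positivity, fun W hW => ?_⟩
      have h1 := hBW (W * (H ^ m)⁻¹) (by
        rw [hr.tri.add, hr.tri.inv, hr.tri.pow]
        push_cast at hW
        linarith)
      have h2 : (h0 (φ W) 1 : ℝ) ≤ m * ((q + 1 : ℕ) * (m * T H H H)) + h0 (1 : Cart C) 1 := by
        rcases lt_or_ge (dg (φ W)) 0 with h3 | h3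
        · rw [h0_neg hC _ h3, Nat.cast_zero]
          positivity
        · have h4 := h0_le_dg hC (φ W) h3
          have h5 : (h0 (φ W) 1 : ℝ) ≤ dg (φ W) + h0 (1 : Cart C) 1 := by exact_mod_cast h4
          rw [hdg] at h5
          have h6 : (m : ℝ) * T W H H ≤ m * ((q + 1 : ℕ) * (m * T H H H)) :=
            mul_le_mul_of_nonneg_left hW.le (by positivity)
          linarith
      have h3 : (h0 (ψ W) 1 : ℝ) ≤ h0 (ψ (W * (H ^ m)⁻¹)) 1 + h0 (φ W) 1 := by exact_mod_cast hle W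
      linarith
  obtain ⟨q, hq⟩ := exists_nat_gt (d / (m * T H H H))
  obtain ⟨B, hB, hBW⟩ := key q
  refine ⟨B, hB, fun W hW => hBW W (lt_of_le_of_lt hW ?_)⟩
  rwa [div_lt_iff₀ (by positivity)] at hq

/-- a divisor with a section has degree at least zero -/
theorem sec_nn [CharZero k] [T0Space X.P] (h : Hyp X) (hr : RR T l c) (hH : Ample H) (W : Cart X)
    (hW : 0 < h0 W 1) : 0 ≤ T W H H := by
  have h6 : ∃ s : secL W 1, s ≠ 0 := by
    by_contra h7
    push Not at h7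
    have h8 : Subsingleton (secL W 1) := ⟨fun a b => by rw [h7 a, h7 b]⟩
    unfold h0 at hW
    rw [Module.finrank_zero_of_subsingleton] at hW
    exact lt_irrefl _ hW
  obtain ⟨s, hs⟩ := h6
  have hs0 : (s : K) ≠ 0 := fun h7 => hs (Subtype.ext h7)
  have hE : Effective (W * prin X (s : K) hs0) := fun x => by
    have h7 := s.2 x
    rw [pow_one, mul_comm] at h7
    rw [mul_eq]
    exact h7
  have h1 := nn_eff h hr (N := H) (fun A hA => ample_mul h.var A H hA hH) hH hE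
  rw [hr.tri.add3] at h1
  have h2 : T H H (prin X (s : K) hs0) = 0 := by
    rw [hr.tri.s23, hr.tri.s12]
    exact numz_T h hr (numz_prin _ hs0) H H
  rw [h2, add_zero, hr.tri.s23, hr.tri.s12] at h1
  exact h1

theorem up_X [CharZero k] [T0Space X.P] (h : Hyp X) (hr : RR T l c) (hS : Sf H S ψ) (d : ℝ) :
    ∃ B : ℝ, 0 ≤ B ∧ ∀ W : Cart X, T W H H ≤ d → (h0 W 1 : ℝ) ≤ B := by
  have hT := pos_amp h hr hS.hH hS.hH hS.hH
  have key : ∀ q : ℕ, ∃ B : ℝ, 0 ≤ B ∧ ∀ W : Cart X, T W H H < q * T H H H → (h0 W 1 : ℝ) ≤ B := by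
    intro q
    induction q with
    | zero =>
      refine ⟨0, le_rfl, fun W hW => ?_⟩
      rw [Nat.cast_zero, zero_mul] at hW
      rcases Nat.eq_zero_or_pos (h0 W 1) with h1 | h1
      · rw [h1, Nat.cast_zero]
      · exact absurd (sec_nn h hr hS.hH W h1) (not_le.2 hW)
    | succ q ih =>
      obtain ⟨B, hB, hBW⟩ := ih
      obtain ⟨B', hB', hBW'⟩ := up_S hr hS ((q + 1 : ℕ) * T H H H)
      refine ⟨B + B', by positivity, fun W hW => ?_⟩
      have h1 := hBW (W * H⁻¹) (by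
        rw [hr.tri.add, hr.tri.inv]
        push_cast at hW
        linarith)
      have h2 := hBW' W hW.le
      have h3 : (h0 W 1 : ℝ) ≤ h0 (W * H⁻¹) 1 + h0 (ψ W) 1 := by exact_mod_cast hS.le W
      linarith
  obtain ⟨q, hq⟩ := exists_nat_gt (d / T H H H)
  obtain ⟨B, hB, hBW⟩ := key q
  refine ⟨B, hB, fun W hW => hBW W (lt_of_le_of_lt hW ?_)⟩
  rwa [div_lt_iff₀ hT] at hq

/-- a nef divisor with `l(N) > 0` has positive degree -/
theorem nef_pos_S [CharZero k] [T0Space X.P] (h : Hyp X) (hr : RR T l c) (hS : Sf H S ψ)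
    (hlp : 0 < l H) {N : Cart X} (hN : Nf N) (hl : 0 < l N) : 0 < T N H H := by
  have hH := hS.hH
  have hi : ∀ A B C, ∃ z : ℤ, T A B C = z := t_int hr h.amp
  rcases (nn_amp h hr hN hH hH).eq_or_lt with hv | hv
  swap
  · exact hv
  exfalso
  have hT := pos_amp h hr hH hH hH
  have h1 := hdg hr hS N hv.symm
  have h2 : T N N H = 0 := le_antisymm h1 (nn_NC h hr hN hH)
  have hNN := all_NN h hr hN hH h2
  have hNG := zero_pairs h hr hH hN hNN hv.symm
  have hNG2 : ∀ G G', T G N G' = 0 := fun G G' => by rw [hr.tri.s12, hNG]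
  have hNG3 : ∀ G G', T G G' N = 0 := fun G G' => by rw [hr.tri.s23, hNG2]
  obtain ⟨C, hC⟩ := low_of hr hS hi (fun n => H ^ 3 * N ^ n) (fun n => H ^ 2 * N ^ n) 0 fun n _ => by
    refine ⟨fun E hE => (cv_pos hr hS hE (nf_pow (ample_pow H 3 (by norm_num) hH) hN n)).le, ?_, ?_, ?_, ?_⟩
    · rw [pow_succ' H 2, mul_assoc]
    · rw [hr.tri.add, hr.tri.pow, hr.tri.pow, hNG]
      push_cast
      linarith
    · simp only [hr.tri.add, hr.tri.add2, hr.tri.pow, hr.tri.pow2, hNG, hNG2]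
      push_cast
      linarith
    · have hM'1 : T H H H < T (H ^ 2 * N ^ n) H H := by
        rw [hr.tri.add, hr.tri.pow, hr.tri.pow, hNG]
        push_cast
        linarith
      have hM'2 : chS T l H (H ^ 2 * N ^ n) = 7 / 6 * T H H H + l H := by
        unfold chS
        simp only [hr.tri.add, hr.tri.add2, hr.tri.pow, hr.tri.pow2, hNG, hNG2]
        push_cast
        ring
      have h1 := t4 hr hS _ hM'1
      rw [hM'2] at h1
      have h3 : (0 : ℝ) < h0 (ψ (H ^ 2 * N ^ n)) 1 := by linarith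
      exact_mod_cast h3
  obtain ⟨B, hB, hBW⟩ := up_X h hr hS (3 * T H H H)
  obtain ⟨n, hn⟩ := exists_nat_gt ((B + C - (9 / 2 * T H H H + 3 * l H + c)) / l N)
  rw [div_lt_iff₀ hl] at hn
  have h3 := hC n (Nat.zero_le n)
  have h4 := hBW (H ^ 3 * N ^ n) (by
    rw [hr.tri.add, hr.tri.pow, hr.tri.pow, hNG]
    push_cast
    linarith)
  have h5 : chi T l c (H ^ 3 * N ^ n) = 9 / 2 * T H H H + 3 * l H + n * l N + c := by
    unfold chi
    rw [hr.ladd, hr.l_pow, hr.l_pow]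
    simp only [hr.tri.add, hr.tri.add2, hr.tri.add3, hr.tri.pow, hr.tri.pow2, hr.tri.pow3, hNG, hNG2, hNG3]
    push_cast
    ring
  rw [h5] at h3
  linarith

theorem nef_pos [CharZero k] [T0Space X.P] (h : Hyp X) (hr : RR T l c) (hlp : ∀ A, Ample A → 0 < l A)
    {A : Cart X} (hA : Ample A) {N : Cart X} (hN : Nf N) (hl : 0 < l N) : 0 < T N A A := by
  obtain ⟨m, k', L, i1, i2, i3, S, ψ, hm, hS⟩ := exists_sf h hA
  have h1 := nef_pos_S h hr hS (hlp _ hS.hH) hN hl
  rw [hr.tri.pow2, hr.tri.pow3] at h1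
  have hm1 : (0 : ℝ) < m := by exact_mod_cast hm
  have h2 := (mul_pos_iff_of_pos_left hm1).1 h1
  exact (mul_pos_iff_of_pos_left hm1).1 h2

end Pool.Agent.H83.TC
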