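import Pool.Agent.H24.VP.Main
import Pool.Agent.H83.TC.Bdd

/-!
# THEOREM Q (MP_e49dc9_ag), corollaries: effective divisors which are not ample

`eff_nonample`: `N` nef, not ample, `l(N) > 0`: there is an effective divisor `M`, not zero, which is not ample.
-/

set_option autoImplicit false

namespace Pool.Agent.H83.TC

open Pool.Agent.H54.RV Pool.Agent.H83.TU Pool.Agent.H83.TK Pool.Agent.H24.TK Pool.Agent.H24.VP Pool.Agent.H24.TU
  Pool.Agent.H39.TU

variable {k K : Type} [Field k] [Field K] [Algebra k K] {X : Mod k K}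
  {T : Cart X → Cart X → Cart X → ℝ} {l : Cart X → ℝ} {c : ℝ}

/-- a nonzero effective divisor which is not ample -/
def ENA (X : Mod k K) : Prop := ∃ M : Cart X, Effective M ∧ ¬ Effective M⁻¹ ∧ ¬ Ample M

/-- an effective divisor of nonzero degree is not zero -/
theorem not_eff_inv [CharZero k] [T0Space X.P] (h : Hyp X) (hr : RR T l c) {A M : Cart X} (hA : Ample A)
    (hM : 0 < T M A A) : ¬ Effective M⁻¹ := by
  intro hE
  have h1 := nn_eff h hr (N := A) (fun B hB => ample_mul h.var B A hB hA) hA hE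
  rw [hr.tri.inv3, hr.tri.s23, hr.tri.s12] at h1
  linarith

theorem exists_sec_of {W : Cart X} (hW : 0 < h0 W 1) : ∃ (s : K) (hs : s ≠ 0), Effective (W * prin X s hs) := by
  have h6 : ∃ s : secL W 1, s ≠ 0 := by
    by_contra h7
    push Not at h7
    have h8 : Subsingleton (secL W 1) := ⟨fun a b => by rw [h7 a, h7 b]⟩
    unfold h0 at hW
    rw [Module.finrank_zero_of_subsingleton] at hW
    exact lt_irrefl _ hW
  obtain ⟨s, hs⟩ := h6
  have hs0 : (s : K) ≠ 0 := fun h7 => hs (Subtype.ext h7)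
  refine ⟨s, hs0, fun x => ?_⟩
  have h7 := s.2 x
  rw [pow_one, mul_comm] at h7
  rw [mul_eq]
  exact h7

/-- a multiple with a section: if `W` is not ample then its divisors are not ample -/
theorem ena_of_sec [CharZero k] [T0Space X.P] (h : Hyp X) (hr : RR T l c) {A W : Cart X} (hA : Ample A)
    (hW : 0 < h0 W 1) (hn : ¬ Ample W) (hd : 0 < T W A A) : ENA X := by
  obtain ⟨s, hs, hE⟩ := exists_sec_of hW
  refine ⟨_, hE, not_eff_inv h hr hA ?_, fun h1 => hn ?_⟩
  · rw [hr.tri.add, numz_T h hr (numz_prin _ hs), add_zero]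
    exact hd
  · have h2 := ample_prin (W * prin X s hs) s⁻¹ (inv_ne_zero hs) h1
    have h3 : W * prin X s hs * prin X s⁻¹ (inv_ne_zero hs) = W := by
      rw [mul_assoc]
      have h4 : prin X s hs * prin X s⁻¹ (inv_ne_zero hs) = 1 := Cart.ext' _ _ fun x => by
        rw [mul_eq, one_eq]
        exact mul_inv_cancel₀ hs
      rw [h4, mul_one]
    rwa [h3] at h2

theorem eff_nonample [IsAlgClosed k] [CharZero k] [T0Space X.P] (h : Hyp X) (hsm : ∀ x, SmP X x) (hr : RR T l c)
    (hlp : ∀ A, Ample A → 0 < l A) {ρ : ℕ} (ν : Cart X →* Multiplicative (Fin ρ → ℤ)) (hν : ∀ D, ν D = 1 → NumZ D)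
    (N : Cart X) (hN : Nf N) (hnN : ¬ Ample N) (hl : 0 < l N) : ENA X := by
  obtain ⟨A, hA⟩ := h.amp
  have hi : ∀ A B C, ∃ z : ℤ, T A B C = z := t_int hr h.amp
  have hd := nef_pos h hr hlp hA hN hl
  rcases (nn_NC h hr hN hA).eq_or_lt with hN0 | hN0
  · rcases theoremVp h hsm hr ν hν N hN hl with ⟨r, M, hr1, hM, hMN⟩ | ⟨F, hF, hRN, M, hM, hM', hRM⟩
    · have hr0 : (0 : ℝ) < r := by exact_mod_cast hr1
      refine ⟨M, hM, not_eff_inv h hr hA ?_, fun hMA => ?_⟩
      · rw [hMN]
        positivity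
      · have h1 := pos_amp h hr hMA hMA hMA
        have hNN := all_NN h hr hN hA hN0.symm
        have h2 : T M M M = r * (r * T N N M) := by
          rw [hMN M M, hr.tri.s12, hMN N M]
        rw [h2, hNN, mul_zero, mul_zero] at h1
        exact lt_irrefl _ h1
    · refine ⟨M, hM, hM', fun hMA => ?_⟩
      have hR : RFun (RF h.var h.gen F) := Pool.Agent.H83.TU.rfun_rf h.var h.gen (uf_all h.var) F hF
      have h1 := hR.amp M hMA
      rw [hRM] at h1
      exact lt_irrefl _ h1
  · obtain ⟨m, k', L, i1, i2, i3, S, ψ, hm, hS⟩ := exists_sf h hA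
    have hm1 : (0 : ℝ) < m := by exact_mod_cast hm
    obtain ⟨C, n₀, hlow⟩ := low2 hr hS hi N hN (by
      rw [hr.tri.pow3]
      positivity)
    obtain ⟨n, hn⟩ := exists_nat_gt (max (max (n₀ : ℝ) 1) ((C - c) / l N))
    have hn1 : (n₀ : ℝ) < n := lt_of_le_of_lt ((le_max_left _ _).trans (le_max_left _ _)) hn
    have hn2 : (1 : ℝ) < n := lt_of_le_of_lt ((le_max_right _ _).trans (le_max_left _ _)) hn
    have hn3 : C - c < n * l N := by
      have := lt_of_le_of_lt (le_max_right _ _) hn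
      rwa [div_lt_iff₀ hl] at this
    have h1 := hlow n (by exact_mod_cast hn1.le)
    have h2 := nn_NN h hr hN
    have h3 : chi T l c (N ^ n) = (n : ℝ) ^ 3 * T N N N / 6 + n * l N + c := by
      unfold chi
      rw [hr.tri.pow, hr.tri.pow2, hr.tri.pow3, hr.l_pow]
      ring
    have h4 : 0 ≤ (n : ℝ) ^ 3 * T N N N / 6 := by positivity
    have h5 : 0 < h0 (N ^ n) 1 := by
      have : (0 : ℝ) < h0 (N ^ n) 1 := by linarith
      exact_mod_cast this
    have hn4 : 1 ≤ n := by exact_mod_cast hn2.le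
    refine ena_of_sec h hr hA h5 (fun h6 => hnN (ample_of_pow N n hn4 h6)) ?_
    rw [hr.tri.pow]
    have : (0 : ℝ) < n := by linarith
    positivity

end Pool.Agent.H83.TC
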