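import Pool.Agent.H83.TC.Thr
import Pool.Agent.H83.TC.Eff
import Pool.Agent.H39.TQ.Def

/-!
# THEOREM Q (MP_e49dc9_ag), corollaries for Picard number at least `2`

`Ind A B`: the classes of `A` and `B` are linearly independent modulo the numerically trivial divisors.
`cor_ends`: `A`, `A'` ample and independent; `s₁`, `s₂` the nef thresholds of `A'⁻¹` with respect to `A` and of `A⁻¹` with respect to `A'`.
If one is irrational the theorem on thresholds gives the exception.  Otherwise `N₁ = a A - b A'`, `s₁ = a / b`, and `N₂` are nef and not ample; `l(N₁) = l(N₂) = 0`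
would give that `N₁` is numerically trivial.
-/

set_option autoImplicit false

namespace Pool.Agent.H83.TC

open Pool.Agent.H54.RV Pool.Agent.H83.TU Pool.Agent.H83.TK Pool.Agent.H24.TK Pool.Agent.H24.VP Pool.Agent.H24.TU
  Pool.Agent.H39.TU

variable {k K : Type} [Field k] [Field K] [Algebra k K] {X : Mod k K}
  {T : Cart X → Cart X → Cart X → ℝ} {l : Cart X → ℝ} {c : ℝ}

/-- linearly independent classes -/
def Ind (A B : Cart X) : Prop := ∀ a b : ℤ, NumZ (A ^ a * B ^ b) → a = 0 ∧ b = 0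

theorem nz_mul {D E : Cart X} (hD : NumZ D) (hE : NumZ E) : NumZ (D * E) := by
  intro A hA
  refine ⟨?_, ?_⟩
  · rw [← mul_assoc]
    exact (hE _ (hD A hA).1).1
  · rw [mul_inv, ← mul_assoc]
    exact (hE _ (hD A hA).2).2

theorem nz_inv {D : Cart X} (hD : NumZ D) : NumZ D⁻¹ := by
  intro A hA
  rw [inv_inv]
  exact ⟨(hD A hA).2, (hD A hA).1⟩

theorem nz_pow {D : Cart X} (hD : NumZ D) (n : ℕ) : NumZ (D ^ n) := by
  induction n with
  | zero =>
    intro A hA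
    rw [pow_zero, inv_one, mul_one]
    exact ⟨hA, hA⟩
  | succ n ih =>
    rw [pow_succ]
    exact nz_mul ih hD

theorem nz_zpow {D : Cart X} (hD : NumZ D) (n : ℤ) : NumZ (D ^ n) := by
  rcases Int.eq_nat_or_neg n with ⟨m, rfl | rfl⟩
  · rw [zpow_natCast]
    exact nz_pow hD m
  · rw [zpow_neg, zpow_natCast]
    exact nz_inv (nz_pow hD m)

theorem nz_nf {D : Cart X} (h1 : Nf D) (h2 : Nf D⁻¹) : NumZ D := fun A hA => ⟨h1 A hA, h2 A hA⟩

theorem nf_npow {N : Cart X} (hN : Nf N) (n : ℕ) : Nf (N ^ n) := by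
  intro A hA
  exact nf_pow hA hN n

theorem nf_zpow {N : Cart X} (hN : Nf N) (n : ℤ) (hn : 0 ≤ n) : Nf (N ^ n) := by
  obtain ⟨m, rfl⟩ : ∃ m : ℕ, n = m := ⟨n.toNat, by omega⟩
  rw [zpow_natCast]
  exact nf_npow hN m

/-- `l` is nonnegative on nef divisors -/
theorem nf_l (h : Hyp X) (hr : RR T l c) (hlp : ∀ A, Ample A → 0 < l A) {N : Cart X} (hN : Nf N) : 0 ≤ l N := by
  obtain ⟨A, hA⟩ := h.amp
  by_contra hneg
  push Not at hneg
  obtain ⟨n, hn⟩ := exists_nat_gt (l A / -(l N))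
  rw [div_lt_iff₀ (by linarith)] at hn
  have h1 := hlp _ (nf_pow hA hN n)
  rw [hr.ladd, hr.l_pow] at h1
  linarith

theorem l_zpow (hr : RR T l c) (A : Cart X) (n : ℤ) : l (A ^ n) = n * l A := by
  rcases Int.eq_nat_or_neg n with ⟨m, rfl | rfl⟩
  · rw [zpow_natCast, hr.l_pow]
    push_cast
    ring
  · rw [zpow_neg, zpow_natCast, hr.l_inv, hr.l_pow]
    push_cast
    ring

/-- an ample divisor is not numerically trivial -/
theorem not_nz [CharZero k] [T0Space X.P] (h : Hyp X) (hr : RR T l c) {A : Cart X} (hA : Ample A) (a : ℤ)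
    (ha : NumZ (A ^ a)) : a = 0 := by
  by_contra hne
  have h1 := pos_amp h hr hA hA hA
  have h2 := numz_T h hr ha A A
  rw [hr.tri.zpow] at h2
  rcases mul_eq_zero.1 h2 with h3 | h3
  · exact hne (by exact_mod_cast h3)
  · exact h1.ne' h3

/-- two independent ample classes -/
theorem ind_amp [CharZero k] [T0Space X.P] (h : Hyp X) (hr : RR T l c) {A B : Cart X} (hi : Ind A B) :
    ∃ H H' : Cart X, Ample H ∧ Ample H' ∧ Ind H H' := by
  obtain ⟨H, hH⟩ := h.amp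
  have key : ∃ D : Cart X, Ind H D := by
    by_contra hcon
    push Not at hcon
    have e1 := hcon A
    have e2 := hcon B
    unfold Ind at e1 e2
    push Not at e1 e2
    obtain ⟨a, b, h1, h2⟩ := e1
    obtain ⟨a', b', h3, h4⟩ := e2
    have hb : b ≠ 0 := by
      rintro rfl
      rw [zpow_zero, mul_one] at h1
      exact h2 (not_nz h hr hH a h1) rfl
    have hb' : b' ≠ 0 := by
      rintro rfl
      rw [zpow_zero, mul_one] at h3
      exact h4 (not_nz h hr hH a' h3) rfl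
    have h5 : NumZ (A ^ (b * a') * B ^ (-(a * b'))) := by
      have h6 := nz_mul (nz_zpow h1 a') (nz_zpow h3 (-a))
      have h7 : (H ^ a * A ^ b) ^ a' * (H ^ a' * B ^ b') ^ (-a) = A ^ (b * a') * B ^ (-(a * b')) := by
        rw [mul_zpow, mul_zpow, ← zpow_mul, ← zpow_mul, ← zpow_mul, ← zpow_mul]
        have e3 : H ^ (a' * -a) = (H ^ (a * a'))⁻¹ := by
          rw [← zpow_neg]
          congr 1
          ring
        have e4 : B ^ (b' * -a) = B ^ (-(a * b')) := by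
          congr 1
          ring
        rw [e3, e4, mul_mul_mul_comm, mul_inv_cancel, one_mul]
      rwa [h7] at h6
    obtain ⟨h8, h9⟩ := hi _ _ h5
    have ha' : a' = 0 := by
      rcases mul_eq_zero.1 h8 with h10 | h10
      · exact absurd h10 hb
      · exact h10
    have ha : a = 0 := by
      have h11 : a * b' = 0 := by omega
      rcases mul_eq_zero.1 h11 with h10 | h10
      · exact h10
      · exact absurd h10 hb'
    rw [ha, zpow_zero, one_mul] at h1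
    have h12 := (hi b 0 (by rwa [zpow_zero, mul_one])).1
    exact hb h12
  obtain ⟨D, hD⟩ := key
  obtain ⟨n, hn⟩ := exists_amp h.var hH D
  refine ⟨H, H ^ n * D, hH, hn n le_rfl, fun a b hab => ?_⟩
  have h1 : H ^ a * (H ^ n * D) ^ b = H ^ (a + n * b) * D ^ b := by
    rw [mul_zpow, ← zpow_natCast, ← zpow_mul, ← mul_assoc, ← zpow_add]
  rw [h1] at hab
  obtain ⟨h2, h3⟩ := hD _ _ hab
  rw [h3, mul_zero, add_zero] at h2
  exact ⟨h2, h3⟩

/-- the exception gives an effective divisor which is not ample -/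
theorem exc_ena [CharZero k] [T0Space X.P] (h : Hyp X) (hr : RR T l c) {A D : Cart X} {s : ℝ}
    (hE : Pool.Agent.H39.TQ.Exc T A D s) : ENA X := by
  obtain ⟨C, ⟨⟨P, -, hP⟩, -⟩, hCC, -⟩ := hE
  refine ⟨C 0, (hP 0).eff, fun h1 => ?_, fun h1 => ?_⟩
  · refine (hP 0).nun _ specializes_rfl ⟨(C 0).ne _, (hP 0).eff _, ?_⟩
    have h2 := h1 (P 0).η
    rw [inv_eq] at h2
    exact h2
  · have h2 := pos_amp h hr h1 h1 h1
    rw [hCC 0 0] at h2
    exact lt_irrefl _ h2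

/-- the two boundary rays in the plane of two ample classes -/
theorem cor_ends [CharZero k] [T0Space X.P] (h : Hyp X) (hr : RR T l c) (hlp : ∀ A, Ample A → 0 < l A)
    (hQ : ∀ (A D : Cart X) (s : ℝ), Pool.Agent.H39.TQ.Ths A D s → ENA X) {A A' : Cart X} (hA : Ample A)
    (hA' : Ample A') (hi : Ind A A') : ENA X ∨ ∃ N : Cart X, Nf N ∧ ¬ Ample N ∧ 0 < l N := by
  obtain ⟨s₁, hs₁, ht₁⟩ := exists_thr h hr hA A'⁻¹
  obtain ⟨s₂, hs₂, ht₂⟩ := exists_thr h hr hA' A⁻¹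
  by_cases hi₁ : Irrational s₁
  · exact Or.inl (hQ A A'⁻¹ s₁ ⟨hA, hi₁, hs₁, ht₁⟩)
  by_cases hi₂ : Irrational s₂
  · exact Or.inl (hQ A' A⁻¹ s₂ ⟨hA', hi₂, hs₂, ht₂⟩)
  right
  unfold Irrational at hi₁ hi₂
  push Not at hi₁ hi₂
  obtain ⟨q₁, hq₁⟩ := hi₁
  obtain ⟨q₂, hq₂⟩ := hi₂
  have hd₁ : (0 : ℤ) < q₁.den := by exact_mod_cast q₁.den_pos
  have hd₂ : (0 : ℤ) < q₂.den := by exact_mod_cast q₂.den_pos
  have hn₁ : s₁ * ((q₁.den : ℤ) : ℝ) = (q₁.num : ℝ) := by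
    rw [← hq₁]
    have h1 := Rat.mul_den_eq_num q₁
    push_cast
    exact_mod_cast h1
  have hn₂ : s₂ * ((q₂.den : ℤ) : ℝ) = (q₂.num : ℝ) := by
    rw [← hq₂]
    have h1 := Rat.mul_den_eq_num q₂
    push_cast
    exact_mod_cast h1
  obtain ⟨a, ha⟩ : ∃ a : ℤ, a = q₁.num := ⟨_, rfl⟩
  obtain ⟨b, hb⟩ : ∃ b : ℤ, b = q₁.den := ⟨_, rfl⟩
  obtain ⟨a', ha'⟩ : ∃ a' : ℤ, a' = q₂.num := ⟨_, rfl⟩
  obtain ⟨b', hb'⟩ : ∃ b' : ℤ, b' = q₂.den := ⟨_, rfl⟩
  rw [← hb] at hd₁ hn₁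
  rw [← hb'] at hd₂ hn₂
  rw [← ha] at hn₁
  rw [← ha'] at hn₂
  have hN₁ : Nf (A ^ a * A'⁻¹ ^ b) := thr_nef h hs₁ hd₁ hn₁.le
  have hN₂ : Nf (A' ^ a' * A⁻¹ ^ b') := thr_nef h hs₂ hd₂ hn₂.le
  have hM₁ : ¬ Ample (A ^ a * A'⁻¹ ^ b) := thr_not h ht₁ hd₁ hn₁.ge
  have hM₂ : ¬ Ample (A' ^ a' * A⁻¹ ^ b') := thr_not h ht₂ hd₂ hn₂.ge
  rcases (nf_l h hr hlp hN₁).eq_or_lt with h1 | h1
  swap
  · exact ⟨_, hN₁, hM₁, h1⟩
  rcases (nf_l h hr hlp hN₂).eq_or_lt with h2 | h2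
  swap
  · exact ⟨_, hN₂, hM₂, h2⟩
  exfalso
  have hlA := hlp A hA
  have hlA' := hlp A' hA'
  have e1 : (a : ℝ) * l A = b * l A' := by
    rw [hr.ladd, l_zpow hr, l_zpow hr, hr.l_inv] at h1
    linarith
  have e2 : (a' : ℝ) * l A' = b' * l A := by
    rw [hr.ladd, l_zpow hr, l_zpow hr, hr.l_inv] at h2
    linarith
  have e3 : (a : ℝ) * a' = b * b' := by
    have h3 : ((a : ℝ) * a') * (l A * l A') = (b * b') * (l A * l A') := by
      calc ((a : ℝ) * a') * (l A * l A') = (a * l A) * (a' * l A') := by ring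
        _ = (b * l A') * (b' * l A) := by rw [e1, e2]
        _ = _ := by ring
    exact mul_right_cancel₀ (mul_pos hlA hlA').ne' h3
  have e4 : a * a' = b * b' := by exact_mod_cast e3
  have ha0 : 0 < a := by
    have h3 : (0 : ℝ) < a * l A := by
      rw [e1]
      have : (0 : ℝ) < b := by exact_mod_cast hd₁
      positivity
    have h4 := (mul_pos_iff_of_pos_right hlA).1 h3
    exact_mod_cast h4
  have e5 : (A ^ a * A'⁻¹ ^ b) ^ b' * (A' ^ a' * A⁻¹ ^ b') ^ a = 1 := by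
    rw [mul_zpow, mul_zpow, ← zpow_mul, ← zpow_mul, ← zpow_mul, ← zpow_mul, inv_zpow, inv_zpow,
      mul_comm (A' ^ (a' * a)), mul_mul_mul_comm, mul_comm b' a, mul_inv_cancel, one_mul,
      mul_comm a' a, e4, inv_mul_cancel]
  have h3 : NumZ ((A ^ a * A'⁻¹ ^ b) ^ b') := by
    refine nz_nf (nf_zpow hN₁ b' hd₂.le) ?_
    rw [inv_eq_of_mul_eq_one_right e5]
    exact nf_zpow hN₂ a ha0.le
  have h4 : (A ^ a * A'⁻¹ ^ b) ^ b' = A ^ (a * b') * A' ^ (-(b * b')) := by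
    rw [mul_zpow, ← zpow_mul, ← zpow_mul, inv_zpow, zpow_neg]
  rw [h4] at h3
  obtain ⟨-, h5⟩ := hi _ _ h3
  have h6 : 0 < b * b' := mul_pos hd₁ hd₂
  omega

/-- **Corollary**: Picard number at least two: there is a nonzero effective divisor which is not ample -/
theorem cor_two [IsAlgClosed k] [CharZero k] [T0Space X.P] (h : Hyp X) (hsm : ∀ x, SmP X x) (hr : RR T l c)
    (hlp : ∀ A, Ample A → 0 < l A) {ρ : ℕ} (ν : Cart X →* Multiplicative (Fin ρ → ℤ)) (hν : ∀ D, ν D = 1 → NumZ D)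
    (hQ : ∀ (A D : Cart X) (s : ℝ), Pool.Agent.H39.TQ.Ths A D s → Pool.Agent.H39.TQ.Exc T A D s) {A B : Cart X}
    (hi : Ind A B) : ENA X := by
  obtain ⟨H, H', hH, hH', hHi⟩ := ind_amp h hr hi
  rcases cor_ends h hr hlp (fun A D s hs => exc_ena h hr (hQ A D s hs)) hH hH' hHi with h1 | ⟨N, hN, hN', hl⟩
  · exact h1
  · exact eff_nonample h hsm hr hlp ν hν N hN hN' hl

end Pool.Agent.H83.TC
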