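import Pool.Agent.H24.VP.Nef

/-!
# THEOREM Q (MP_e49dc9_ag), corollaries: the nef threshold

`exists_thr`: `A` ample, `D` any divisor: the nef threshold `s`: for `b ≥ 1`, `a A + b D` is ample if `a > s b` and not ample if `a < s b`.
`thr_nef`, `thr_not`: if `s = a / b` then `N = a A + b D` is nef and not ample.
-/

set_option autoImplicit false

namespace Pool.Agent.H83.TC

open Pool.Agent.H54.RV Pool.Agent.H83.TU Pool.Agent.H83.TK Pool.Agent.H24.VP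

variable {k K : Type} [Field k] [Field K] [Algebra k K] {X : Mod k K}
  {T : Cart X → Cart X → Cart X → ℝ} {l : Cart X → ℝ} {c : ℝ}

theorem zpow_amp {A : Cart X} (hA : Ample A) (n : ℤ) (hn : 0 < n) : Ample (A ^ n) := by
  obtain ⟨m, rfl⟩ : ∃ m : ℕ, n = m := ⟨n.toNat, by omega⟩
  rw [zpow_natCast]
  exact ample_pow A m (by omega) hA

theorem zroot_amp {A : Cart X} (n : ℤ) (hn : 0 < n) (hA : Ample (A ^ n)) : Ample A := by
  obtain ⟨m, rfl⟩ : ∃ m : ℕ, n = m := ⟨n.toNat, by omega⟩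
  rw [zpow_natCast] at hA
  exact ample_of_pow A m (by omega) hA

/-- going up from an ample class -/
theorem up_amp (h : Hyp X) {A D : Cart X} (hA : Ample A) {a b a' b' : ℤ} (hb : 0 < b) (hb' : 0 < b')
    (h1 : Ample (A ^ a' * D ^ b')) (h2 : a' * b ≤ a * b') : Ample (A ^ a * D ^ b) := by
  refine zroot_amp b' hb' ?_
  have e : (A ^ a * D ^ b) ^ b' = (A ^ a' * D ^ b') ^ b * A ^ (a * b' - a' * b) := by
    rw [mul_zpow, mul_zpow, ← zpow_mul, ← zpow_mul, ← zpow_mul, ← zpow_mul, mul_right_comm, ← zpow_add,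
      mul_comm b' b]
    congr 2
    ring
  rw [e]
  rcases h2.eq_or_lt with h3 | h3
  · rw [h3, sub_self, zpow_zero, mul_one]
    exact zpow_amp h1 b hb
  · exact ample_mul h.var _ _ (zpow_amp h1 b hb) (zpow_amp hA _ (by omega))

theorem tri_zpow3 {T : Cart X → Cart X → Cart X → ℝ} (ht : Tri T) (U V W : Cart X) (n : ℤ) :
    T U V (W ^ n) = n * T U V W := by
  rcases Int.eq_nat_or_neg n with ⟨m, rfl | rfl⟩
  · rw [zpow_natCast, ht.pow3]
    push_cast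
    ring
  · rw [zpow_neg, zpow_natCast, ht.inv3, ht.pow3]
    push_cast
    ring

theorem exists_thr [CharZero k] [T0Space X.P] (h : Hyp X) (hr : RR T l c) {A : Cart X} (hA : Ample A) (D : Cart X) :
    ∃ s : ℝ, (∀ a b : ℤ, 0 < b → s * b < a → Ample (A ^ a * D ^ b)) ∧
      ∀ a b : ℤ, 0 < b → (a : ℝ) < s * b → ¬ Ample (A ^ a * D ^ b) := by
  obtain ⟨S, hS⟩ : ∃ S : Set ℝ, S = {t : ℝ | ∃ a b : ℤ, 0 < b ∧ t = (a : ℝ) / b ∧ Ample (A ^ a * D ^ b)} := ⟨_, rfl⟩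
  have hA3 := pos_amp h hr hA hA hA
  have hne : S.Nonempty := by
    obtain ⟨n₀, hn⟩ := exists_amp h.var hA D
    refine ⟨((n₀ : ℤ) : ℝ) / ((1 : ℤ) : ℝ), ?_⟩
    rw [hS]
    refine ⟨n₀, 1, by norm_num, rfl, ?_⟩
    rw [zpow_natCast, zpow_one]
    exact hn n₀ le_rfl
  have hbd : BddBelow S := by
    refine ⟨-(T A A D) / T A A A, ?_⟩
    rw [hS]
    rintro t ⟨a, b, hb, rfl, hab⟩
    have hb' : (0 : ℝ) < b := by exact_mod_cast hb
    have h1 := pos_amp h hr hA hA hab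
    rw [hr.tri.add3, tri_zpow3 hr.tri, tri_zpow3 hr.tri] at h1
    rw [div_le_div_iff₀ hA3 hb']
    linarith
  refine ⟨sInf S, fun a b hb hab => ?_, fun a b hb hab h1 => ?_⟩
  · have hb' : (0 : ℝ) < b := by exact_mod_cast hb
    have h1 : sInf S < (a : ℝ) / b := by
      rw [lt_div_iff₀ hb']
      exact hab
    obtain ⟨t, ht, hta⟩ := exists_lt_of_csInf_lt hne h1
    rw [hS] at ht
    obtain ⟨a', b', hb1, rfl, hab'⟩ := ht
    have hb1' : (0 : ℝ) < b' := by exact_mod_cast hb1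
    rw [div_lt_div_iff₀ hb1' hb'] at hta
    refine up_amp h hA hb hb1 hab' ?_
    have h2 : a' * b < a * b' := by exact_mod_cast hta
    exact h2.le
  · have hb' : (0 : ℝ) < b := by exact_mod_cast hb
    have h2 : sInf S ≤ (a : ℝ) / b := csInf_le hbd (by
      rw [hS]
      exact ⟨a, b, hb, rfl, h1⟩)
    rw [le_div_iff₀ hb'] at h2
    linarith

theorem thr_nef (h : Hyp X) {A D : Cart X} {s : ℝ}
    (hs : ∀ a b : ℤ, 0 < b → s * b < a → Ample (A ^ a * D ^ b)) {a b : ℤ} (hb : 0 < b) (hab : s * b ≤ a) :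
    Nf (A ^ a * D ^ b) := by
  intro B hB
  obtain ⟨n, hn⟩ := exists_amp h.var hB A⁻¹
  obtain ⟨k', hk⟩ : ∃ k', k' = max n 1 := ⟨_, rfl⟩
  have h1 := hn k' (by rw [hk]; exact le_max_left _ _)
  have hk1 : 1 ≤ k' := by rw [hk]; exact le_max_right _ _
  refine ample_of_pow _ k' hk1 ?_
  have e : (B * (A ^ a * D ^ b)) ^ k' = (B ^ k' * A⁻¹) * (A ^ (k' * a + 1) * D ^ (k' * b)) := by
    rw [mul_pow, mul_pow, ← zpow_natCast (A ^ a), ← zpow_natCast (D ^ b), ← zpow_mul, ← zpow_mul, zpow_add,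
      zpow_one, mul_comm a, mul_comm b]
    have e2 : A⁻¹ * (A ^ ((k' : ℤ) * a) * A * D ^ ((k' : ℤ) * b)) = A ^ ((k' : ℤ) * a) * D ^ ((k' : ℤ) * b) := by
      rw [mul_comm (A ^ ((k' : ℤ) * a)) A, mul_assoc A, inv_mul_cancel_left]
    rw [mul_assoc (B ^ k') A⁻¹, e2]
  rw [e]
  have hk0 : (0 : ℤ) < k' := by exact_mod_cast hk1
  refine ample_mul h.var _ _ h1 (hs _ _ (mul_pos hk0 hb) ?_)
  have hk2 : (0 : ℝ) < k' := by exact_mod_cast hk1
  have h3 := mul_le_mul_of_nonneg_left hab hk2.le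
  push_cast
  linarith

theorem thr_not (h : Hyp X) {A D : Cart X} {s : ℝ}
    (hs : ∀ a b : ℤ, 0 < b → (a : ℝ) < s * b → ¬ Ample (A ^ a * D ^ b)) {a b : ℤ} (hb : 0 < b) (hab : (a : ℝ) ≤ s * b) :
    ¬ Ample (A ^ a * D ^ b) := by
  intro h1
  obtain ⟨n, hn⟩ := exists_amp h.var h1 A⁻¹
  obtain ⟨k', hk⟩ : ∃ k', k' = max n 1 := ⟨_, rfl⟩
  have h2 := hn k' (by rw [hk]; exact le_max_left _ _)
  have hk1 : 1 ≤ k' := by rw [hk]; exact le_max_right _ _
  have hk0 : (0 : ℤ) < k' := by exact_mod_cast hk1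
  have hk2 : (0 : ℝ) < k' := by exact_mod_cast hk1
  have e : (A ^ a * D ^ b) ^ k' * A⁻¹ = A ^ (k' * a - 1) * D ^ (k' * b) := by
    rw [mul_pow, ← zpow_natCast (A ^ a), ← zpow_natCast (D ^ b), ← zpow_mul, ← zpow_mul, zpow_sub_one,
      mul_comm a, mul_comm b, mul_right_comm]
  rw [e] at h2
  refine hs _ _ (mul_pos hk0 hb) ?_ h2
  have h3 := mul_le_mul_of_nonneg_left hab hk2.le
  push_cast
  linarith

end Pool.Agent.H83.TC
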